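import Mathlib
import Pool.Agent.R528.RM.GapVecFinal

set_option autoImplicit false

/-!
# Random models of the primes: all limit points of the vectors of consecutive gaps

That the prime gaps below `x` are `O((log x)^t)` for every `t > 2` is suggested by random models of the
primes.  The theorem below determines, for EVERY random model in which the integers are decided one
after the other and the conditional probability of choosing `n + 1` given the past is asymptotic to
`1 / log n` (no independence is assumed; Cramér's model and the Hawkins random sieve are examples),
the complete set of limit points of the vectors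

  `(g_n, g_{n+1}, …, g_{n+k-1}) / (log p_n)²`,   `g_n = p_{n+1} - p_n`,

of `k` consecutive gaps: almost surely, for every `k`, it is the whole simplex
`{x : x_i ≥ 0, x_1 + … + x_k ≤ 1}`.  For `k = 1` this says that the limit points of `g_n / (log p_n)²`
fill `[0, 1]`, so that the limit superior is `1` and every exponent `t ≥ 2` is allowed; for larger `k` it says that
several consecutive gaps can be simultaneously large exactly as long as their sum is at most
`(1 + o(1)) (log p_n)²`.
-/

open MeasureTheory Filter
open scoped Topology

namespace Pool.Agent.Results.MP_7ba156_nt.LimitPointsOfGapVectors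

/-- the member number `n` (counted from `0`) of the set `S` of natural numbers -/
noncomputable def member (S : Set ℕ) (n : ℕ) : ℕ := Nat.nth (fun a => a ∈ S) n

/-- the vector of the `k` consecutive gaps of `S` starting at its member number `n`, divided by the
squared logarithm of this member -/
noncomputable def gapVector (S : Set ℕ) (k n : ℕ) : Fin k → ℝ := fun i =>
  ((member S (n + i + 1) : ℝ) - member S (n + i)) / Real.log (member S n) ^ 2

end Pool.Agent.Results.MP_7ba156_nt.LimitPointsOfGapVectors

open Pool.Agent.Results.MP_7ba156_nt.LimitPointsOfGapVectors

/-- Let `A n` be the event that `n` belongs to a random set adapted to a filtration `ℱ`, such that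
almost surely the conditional probability of `A (n + 1)` given `ℱ n`, times `log n`, tends to `1`.
Then almost surely the random set is infinite and, for every `k`, the set of limit points of the
vectors of `k` consecutive gaps, divided by the squared logarithm, is the simplex of all
`x : Fin k → ℝ` with nonnegative coordinates and coordinate sum at most `1`. -/
theorem Pool.Agent.Results.MP_7ba156_nt.LimitPointsOfGapVectors.result
    {Ω : Type} [mΩ : MeasurableSpace Ω] (μ : Measure Ω) [IsProbabilityMeasure μ]
    (ℱ : Filtration ℕ mΩ) (A : ℕ → Set Ω) (hA : ∀ n, MeasurableSet[ℱ n] (A n))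
    (hd : ∀ᵐ ω ∂μ, Tendsto (fun n : ℕ =>
      (μ[(A (n + 1)).indicator (fun _ => (1 : ℝ)) | ℱ n]) ω * Real.log n) atTop (𝓝 1)) :
    ∀ᵐ ω ∂μ, {a | ω ∈ A a}.Infinite ∧ ∀ (k : ℕ) (x : Fin k → ℝ),
      MapClusterPt x atTop (gapVector {a | ω ∈ A a} k) ↔ (∀ i, 0 ≤ x i) ∧ ∑ i, x i ≤ 1 :=
  Pool.Agent.R528.RM.gapvec hA hd
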