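import Pool.Agent.R502.TQ.Fin2

/-!
# Almost all primes `p`: simultaneous long prime gaps near all the rational multiples `m p / d`

For every `λ`, `A` and `ε > 0` there are `c > 0` and `K₀` such that for `K ≥ K₀`, large `X` and all
but a proportion `ε` of the primes `p` in `(X, 2 X]` at least `c K` of the indices `i < K` have the
property: for all `1 ≤ d, m ≤ A` none of the numbers `m p ± k`, `i L m < k ≤ (i + 1) L m`, is
`d` times a prime larger than `X`; here `L ≤ λ log X`.  So the real intervals of length `L m / d`
at distance `i L m / d` to both sides of `m p / d` contain no prime, for all `m`, `d` at once.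

Proof: conditions on the divisibility of the integers `A! ² p + h` by small primes
(`Pool/Agent/R502/TQ`), the Selberg type weights for blocks of `Pool/Agent/R526/AA`, the
Bombieri-Vinogradov theorem of the starting repository.
-/

set_option autoImplicit false

namespace Pool.Agent.Results.MP_7ba156_nt.LongGapsNearRationalMultiples

open Finset

open Classical in
/-- For almost all primes `p ∈ (X, 2 X]` a positive proportion of the `K` blocks is free for all
the rational multiples `m p / d` at the same time. -/
theorem result (lam ε : ℝ) (hlam : 0 < lam) (hε : 0 < ε) (A : ℕ) :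
    ∃ c : ℝ, 0 < c ∧ ∃ K₀ : ℕ, ∀ K : ℕ, K₀ ≤ K → ∃ X₀ : ℕ, ∀ X : ℕ, X₀ ≤ X →
      ∀ L : ℕ, (L : ℝ) ≤ lam * Real.log X →
      (((Ioc X (2 * X)).filter (fun p : ℕ => p.Prime ∧ (((range K).filter (fun i =>
        ∀ n d m k : ℕ, n.Prime → X < n → 1 ≤ d → d ≤ A → 1 ≤ m → m ≤ A →
          i * L * m < k → k ≤ (i + 1) * L * m →
          d * n ≠ m * p + k ∧ d * n ≠ m * p - k)).card : ℝ) < c * K)).card : ℝ) ≤
        ε * Nat.primeCounting X :=
  Pool.Agent.R502.TQ.multiples_almost lam ε hlam hε A

end Pool.Agent.Results.MP_7ba156_nt.LongGapsNearRationalMultiples
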