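import Mathlib
import Pool.Agent.R433.SL.Final

set_option autoImplicit false

/-!
# Record prime gaps around all the minors of integer matrices of a given determinant

Let `f(Z) = log Z (log₂ Z)² log₄ Z / (log₃ Z)²` be the largest known order of prime gaps (up to
constants).  Let `B` be an integer `n × n` matrix of determinant `N ≠ 0` and let `q ≥ 1`.  For all
large `Z` there is an integer matrix `A` of determinant `N`, congruent to `B` modulo `q`, with all
entries at most `Z` in absolute value, such that for EVERY minor `D` of `A` of any size
`1, …, n - 1` (all entries of `A`, …, all entries of the adjugate of `A`) all the integers `t` at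
distance at most `c f(Z)` from `D` are composite, with a prime factor `p ≤ |t| ^ (1/10)`.  So every
proper minor lies in the middle of a prime gap of record length.

For `n = 2`, `N = 1`: there are consecutive Farey fractions `b/d, a/c` for which all the four
numbers `a, b, c, d` lie in the middle of gaps of record length.

The equation `det A = N` is not homogeneous, and the families of homogeneous polynomials treated
before (starting library: polynomials of weight one, squarefree forms) do not apply.

Method.  A product of elementary matrices gives polynomials `A(x)`, `x ∈ ℤ ^ d`, of determinant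
one.  The numbers of the solutions of `A(x) = g` modulo `p` are, for all `g`, at least `1 - C/p`
times the mean number (`Stab`); the product of two independent such matrices is then uniformly
distributed up to `C²/p²` (`Low`).  So the distribution of the minors modulo `p` is that of the
minors of the elements of `SL_n(𝔽_p)`, which is estimated by means of diagonal and elementary
matrices (`Minors`).  The criterion of the starting library (`Y837/SV/Crit3`) then applies to the
polynomials given by the minors; a box far from the origin makes all of them large.
-/

namespace Pool.Agent.Results.MP_7ba156_nt.MatricesOfGivenDeterminant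

/-- `f Z = log Z (log₂ Z)² log₄ Z / (log₃ Z)²`. -/
noncomputable def f (Z : ℝ) : ℝ :=
  Real.log Z * (Real.log (Real.log Z)) ^ 2 * Real.log (Real.log (Real.log (Real.log Z))) /
    (Real.log (Real.log (Real.log Z))) ^ 2

/-- **Record prime gaps around all the proper minors of integer matrices of a given
determinant.** -/
theorem result (n q : ℕ) (hq : 0 < q) (B : Matrix (Fin n) (Fin n) ℤ) (hB : B.det ≠ 0) :
    ∃ c : ℝ, 0 < c ∧ ∃ Z₀ : ℝ, ∀ Z : ℕ, Z₀ ≤ Z → ∃ A : Matrix (Fin n) (Fin n) ℤ,
      A.det = B.det ∧ (∀ i j, |A i j| ≤ Z) ∧ (∀ i j, (q : ℤ) ∣ A i j - B i j) ∧
      ∀ (k : ℕ) (r s : Fin k → Fin n), 0 < k → k < n → StrictMono r → StrictMono s →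
        ∀ t : ℤ, |(t : ℝ) - ((A.submatrix r s).det : ℤ)| ≤ c * f Z →
          ∃ p : ℕ, p.Prime ∧ (p : ℤ) ^ 10 ≤ |t| ∧ (p : ℤ) ∣ t := by
  cases n with
  | zero =>
    exact ⟨1, one_pos, 0, fun Z _ => ⟨B, rfl, fun i => i.elim0, fun i => i.elim0,
      fun k r s _ hk => absurd hk (Nat.not_lt_zero k)⟩⟩
  | succ n => exact Pool.Agent.R433.SL.slmain n q hq B hB

end Pool.Agent.Results.MP_7ba156_nt.MatricesOfGivenDeterminant
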