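import Pool.Agent.R485.RG.Lac2
import Pool.Agent.R485.RG.Base

set_option autoImplicit false

/-!
# Numbers `A` all of whose powers `A ^ (2 ^ k)` lie in the middle of a record prime gap

Let `f(x) = log x (log₂ x)² log₄ x / (log₃ x)²`, the size of the largest gaps between consecutive primes
that are known to occur up to `x`. Mills (1947) found a number `A` such that the integer parts of all the
powers `A ^ (3 ^ k)` are primes. Here is the counterpart for large gaps: for every `b > 1` there are
numbers `A` such that for ALL `k ≥ 0` there is no prime within `c (b - 1) / (2 b) f(y)` of `y = A ^ (b ^ k)`.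

More generally let `Y n * α ^ (v n)` be a lacunary sequence, `v (n + 1) ≥ (1 + δ) v n`; for instance
`α ^ ((1 + δ) ^ n)`, `3 α ^ (n!)`, `2 ^ (b ^ n) α ^ (b ^ n)`. For every `t < 1` the set of the `α` in an
interval for which ALL the terms `y` of the sequence, from some point on, have no prime within
`c (1 - t) δ / (1 + δ) f(y)`, has Hausdorff dimension at least `t`; and the dimension is `1` if this
radius is replaced by any `g(y) = o(f(y))`.

Method: the starting theorem on gaps of record size in all intervals of length `x ^ ε`, and a Cantor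
construction: the parameters for which the `n`-th term is near the centre of a gap form intervals inside
each of which the `(n + 1)`-st term passes through very many gaps; the loss of dimension at all stages
is controlled by the lacunarity.
-/

open Filter Topology Set

namespace Pool.Agent.Results.MP_7ba156_nt.MillsTypeGaps

/-- The record scale `f(x) = log x (log₂ x)² log₄ x / (log₃ x)²` (iterated natural logarithms). -/
noncomputable def f (x : ℝ) : ℝ :=
  Real.log x * (Real.log (Real.log x)) ^ 2 * Real.log (Real.log (Real.log (Real.log x))) /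
    (Real.log (Real.log (Real.log x))) ^ 2

/-- There is no prime within `T` of `y`. -/
def PrimeFree (T y : ℝ) : Prop := ∀ p : ℕ, p.Prime → T < |(p : ℝ) - y|

/-- The lacunary sequences `Y n * α ^ (v n)` admitted: for large `n` the number `Y n` is at least some
fixed `y₀ > 0`, `v n ≥ 1`, `v (n + 1) ≥ (1 + δ) v n` and `log Y (n + 1) ≥ (1 + δ) log Y n - C`; for
instance all constants `Y > 0`. -/
def Lacunary (δ C : ℝ) (Y v : ℕ → ℝ) : Prop :=
  (∃ y₀ : ℝ, 0 < y₀ ∧ ∀ᶠ n in atTop, y₀ ≤ Y n) ∧ (∀ᶠ n in atTop, 1 ≤ v n) ∧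
    ∀ᶠ n in atTop, (1 + δ) * v n ≤ v (n + 1) ∧ (1 + δ) * Real.log (Y n) - C ≤ Real.log (Y (n + 1))

/-- The set of the `α` between `u` and `w` such that for all large `n` there is no prime within `g(y)`
of `y = Y n * α ^ (v n)`. -/
def AllInGaps (Y v : ℕ → ℝ) (g : ℝ → ℝ) (u w : ℝ) : Set ℝ :=
  {α : ℝ | α ∈ Ioo u w ∧ ∀ᶠ n in atTop, PrimeFree (g (Y n * α ^ (v n))) (Y n * α ^ (v n))}

/-- There is `c > 0` such that

* for `δ > 0`, all lacunary sequences, `1 ≤ u < w` and `0 < t < 1` the set of the `α` in `(u, w)` such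
  that for ALL large `n` there is no prime within `c (1 - t) δ / (1 + δ) f(y)` of `y = Y n * α ^ (v n)`
  has Hausdorff dimension at least `t`;
* for every function `g` with `g / f → 0` the corresponding set with `g(y)` in place of
  `c (1 - t) δ / (1 + δ) f(y)` has Hausdorff dimension `1`;
* for every `b > 1` there are arbitrarily large `A` such that for ALL `k ≥ 0` there is no prime within
  `c (b - 1) / (2 b) f(y)` of `y = A ^ (b ^ k)`. -/
theorem result : ∃ c : ℝ, 0 < c ∧
    (∀ (δ C : ℝ) (Y v : ℕ → ℝ), 0 < δ → Lacunary δ C Y v → ∀ u w : ℝ, 1 ≤ u → u < w →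
      (∀ t : ℝ, 0 < t → t < 1 →
        ENNReal.ofReal t ≤ dimH (AllInGaps Y v (fun y => c * ((1 - t) * δ / (1 + δ)) * f y) u w)) ∧
      ∀ g : ℝ → ℝ, Tendsto (fun y => g y / f y) atTop (𝓝 0) → dimH (AllInGaps Y v g u w) = 1) ∧
    ∀ b : ℝ, 1 < b → ∀ x₁ : ℝ, ∃ A : ℝ, x₁ ≤ A ∧ 1 < A ∧ ∀ k : ℕ,
      PrimeFree (c * ((b - 1) / (2 * b)) * f (A ^ (b ^ k))) (A ^ (b ^ k)) := by
  obtain ⟨c, hc, x₀, h⟩ := Pool.Agent.R485.RG.base
  refine ⟨c / 384, by positivity, fun δ C Y v hδ hL u w hu huw => ⟨fun t ht0 ht1 => ?_,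
    fun g hg => ?_⟩, fun b hb x₁ => ?_⟩
  · obtain ⟨hY, hv, hgr⟩ := hL
    exact Pool.Agent.R485.RG.all_any hc h Y v (Pool.Agent.R485.RG.adm_of_lac hδ hY hv
      (hgr.mono fun n hn => hn.1)) hδ hgr hu huw ht0 ht1
  · obtain ⟨hY, hv, hgr⟩ := hL
    exact Pool.Agent.R485.RG.all_o hc h Y v (Pool.Agent.R485.RG.adm_of_lac hδ hY hv
      (hgr.mono fun n hn => hn.1)) hδ hgr hu huw g hg
  · exact Pool.Agent.R485.RG.mills hc h hb x₁

end Pool.Agent.Results.MP_7ba156_nt.MillsTypeGaps
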